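import Pool.Agent.helper52.IR.Spec

set_option autoImplicit false

open scoped MatrixGroups ContDiff Topology UpperHalfPlane ComplexConjugate
open UpperHalfPlane MeasureTheory Filter Set

namespace Pool.Agent.IR

open Pool.Agent.RS
open Pool.Agent.MS (bq BB BA SF pf)

theorem SFP_aM0 (hGLC : RS.GLC_stmt) : aM 0 = 1 := by
  obtain ⟨_, _, _, _, _, _, _, _, _, _, aadd, _⟩ := hGLC
  have h := aadd 0 0
  rw [add_zero] at h
  exact (mul_eq_left (a := aM 0)).mp h.symm

theorem SFP_nM0 : nM 0 = 1 := by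
  ext i j
  fin_cases i <;> fin_cases j <;> simp [nM]

theorem SFP_lM0 : lM 0 = 1 := by
  ext i j
  fin_cases i <;> fin_cases j <;> simp [lM]

theorem SFP_proof (hGLC : RS.GLC_stmt) : SFP_stmt := by
  have a0 := SFP_aM0 hGLC
  have n0 := SFP_nM0
  have l0 := SFP_lM0
  obtain ⟨_, _, _, ca, cn, cl, _, _, _, _, aadd, nadd, ladd, _, _, _, _, na, la, _⟩ := hGLC
  intro Γ Ψ Ψa Ψn Ψl h
  refine ⟨?_, ?_, ?_⟩
  · intro Φ Φa Φn Φl k
    refine ⟨?_, ?_, ?_, ?_, ?_, ?_, ?_⟩
    · refine ⟨h.i0.1.mul k.i0.1, fun γ g => ?_⟩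
      simp only [h.i0.2 γ g, k.i0.2 γ g]
    · refine ⟨(h.ia.1.mul k.i0.1).add (h.i0.1.mul k.ia.1), fun γ g => ?_⟩
      simp only [h.i0.2 γ g, k.i0.2 γ g, h.ia.2 γ g, k.ia.2 γ g]
    · refine ⟨(h.i1.1.mul k.i0.1).add (h.i0.1.mul k.i1.1), fun γ g => ?_⟩
      simp only [h.i0.2 γ g, k.i0.2 γ g, h.i1.2 γ g, k.i1.2 γ g]
    · refine ⟨(h.il.1.mul k.i0.1).add (h.i0.1.mul k.il.1), fun γ g => ?_⟩
      simp only [h.i0.2 γ g, k.i0.2 γ g, h.il.2 γ g, k.il.2 γ g]
    · intro g
      have h5 := HasDerivAt.fun_mul (h.da g) (k.da g)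
      simpa only [a0, mul_one] using h5
    · intro g
      have h5 := HasDerivAt.fun_mul (h.dn g) (k.dn g)
      simpa only [n0, mul_one] using h5
    · intro g
      have h5 := HasDerivAt.fun_mul (h.dl g) (k.dl g)
      simpa only [l0, mul_one] using h5
  · refine ⟨?_, ?_, ?_, ?_, ?_, ?_, ?_⟩
    · refine ⟨continuous_const.sub h.i0.1, fun γ g => ?_⟩
      simp only [h.i0.2 γ g]
    · refine ⟨h.ia.1.neg, fun γ g => ?_⟩
      simp only [h.ia.2 γ g]
    · refine ⟨h.i1.1.neg, fun γ g => ?_⟩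
      simp only [h.i1.2 γ g]
    · refine ⟨h.il.1.neg, fun γ g => ?_⟩
      simp only [h.il.2 γ g]
    · intro g
      exact (h.da g).const_sub 1
    · intro g
      exact (h.dn g).const_sub 1
    · intro g
      exact (h.dl g).const_sub 1
  · intro s
    have cs : Continuous fun g : SL(2, ℝ) => g * aM s := continuous_id.mul continuous_const
    refine ⟨?_, ?_, ?_, ?_, ?_, ?_, ?_⟩
    · refine ⟨h.i0.1.comp cs, fun γ g => ?_⟩
      simp only [mul_assoc]
      exact h.i0.2 γ (g * aM s)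
    · refine ⟨h.ia.1.comp cs, fun γ g => ?_⟩
      simp only [mul_assoc]
      exact h.ia.2 γ (g * aM s)
    · refine ⟨continuous_const.mul (h.i1.1.comp cs), fun γ g => ?_⟩
      simp only [mul_assoc]
      rw [h.i1.2 γ (g * aM s)]
    · refine ⟨continuous_const.mul (h.il.1.comp cs), fun γ g => ?_⟩
      simp only [mul_assoc]
      rw [h.il.2 γ (g * aM s)]
    · intro g
      have h1 := h.da (g * aM s)
      have e : (fun t => Ψ (g * aM t * aM s)) = fun t => Ψ (g * aM s * aM t) := by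
        funext t
        rw [mul_assoc, mul_assoc, ← aadd, ← aadd, add_comm]
      rw [e]
      exact h1
    · intro g
      have h1 := h.dn (g * aM s)
      have h2 : HasDerivAt (fun t : ℝ => Real.exp (-s) * t) (Real.exp (-s)) 0 := by
        simpa using (hasDerivAt_id (0 : ℝ)).const_mul (Real.exp (-s))
      have h3 : HasDerivAt (fun t => Ψ (g * aM s * nM t)) (Ψn (g * aM s)) (Real.exp (-s) * 0) := by
        rw [mul_zero]
        exact h1
      have h4 := h3.comp (0 : ℝ) h2
      have e : (fun t => Ψ (g * nM t * aM s)) = (fun t => Ψ (g * aM s * nM t)) ∘ fun t : ℝ => Real.exp (-s) * t := by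
        funext t
        simp only [Function.comp]
        rw [mul_assoc, na, mul_assoc]
      rw [e, mul_comm (Real.exp (-s)) (Ψn (g * aM s))]
      exact h4
    · intro g
      have h1 := h.dl (g * aM s)
      have h2 : HasDerivAt (fun t : ℝ => Real.exp s * t) (Real.exp s) 0 := by
        simpa using (hasDerivAt_id (0 : ℝ)).const_mul (Real.exp s)
      have h3 : HasDerivAt (fun t => Ψ (g * aM s * lM t)) (Ψl (g * aM s)) (Real.exp s * 0) := by
        rw [mul_zero]
        exact h1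
      have h4 := h3.comp (0 : ℝ) h2
      have e : (fun t => Ψ (g * lM t * aM s)) = (fun t => Ψ (g * aM s * lM t)) ∘ fun t : ℝ => Real.exp s * t := by
        funext t
        simp only [Function.comp]
        rw [mul_assoc, la, mul_assoc]
      rw [e, mul_comm (Real.exp s) (Ψl (g * aM s))]
      exact h4

end Pool.Agent.IR
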